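import Pool.Agent.Results.MP_308fa9_nt.ClosuresInFamilies
import Pool.Agent.Results.MP_308fa9_nt.FamiliesOverExtensions

/-! The members of a family of closed subsets of the powers of an elliptic curve which are not explained by the
Mordell-Weil sieve, over the field itself and over all its extensions of bounded degree. -/

set_option autoImplicit false

namespace Pool.Agent.Helper12.BM

open MvPolynomial NumberField IsDedekindDomain Pool.Agent.TH954

open scoped LinearAlgebra.Projectivization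

open Pool.Agent.Results.MP_308fa9_nt.FamiliesOverExtensions (curve coords MultiHom IsSum MemberOver PlacesAbove Unobstructed)
open Pool.Agent.Results.MP_308fa9_nt (ClosuresInFamilies.Unobstructed ClosuresInFamilies.OnE ClosuresInFamilies.Fibre)

/-- The Mordell-Weil sieve explains that the member `X_y` of the family has no points over `K` and over the extensions
of degree at most `M`: for `K` itself and for ALL extensions `F` of `K` of degree at most `M` no point of the product
of the `X_y(F_w)` (over the finite places `w` of `F` not above `T`) is in the closure of the group `E(F) ^ r`. -/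
def Obstructed {K : Type} [Field K] [NumberField K] (a b : 𝓞 K) {r n q : ℕ}
    (G : Fin q → MvPolynomial ((Fin r × Fin 3) ⊕ Fin (n + 1)) (𝓞 K)) (T : Finset ℕ) (M : ℕ)
    (y : ℙ K (Fin (n + 1) → K)) : Prop :=
  y ∉ Pool.Agent.Results.MP_308fa9_nt.ClosuresInFamilies.Unobstructed a b G (PlacesAbove T K) ∧
    y ∉ Unobstructed a b G T M

theorem places_finite (T : Finset ℕ) (hT : ∀ p ∈ T, p.Prime) (K : Type) [Field K] [NumberField K] :
    (PlacesAbove T K).Finite := by
  have h1 : PlacesAbove T K ⊆ ⋃ p ∈ T, {w : HeightOneSpectrum (𝓞 K) | w.asIdeal ∣ Ideal.span {((p : ℕ) : 𝓞 K)}} := by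
    rintro w ⟨p, hp, hw⟩
    simp only [Set.mem_iUnion]
    refine ⟨p, hp, ?_⟩
    show w.asIdeal ∣ Ideal.span {((p : ℕ) : 𝓞 K)}
    rw [Ideal.dvd_span_singleton]
    exact hw
  refine Set.Finite.subset (Set.Finite.biUnion (Finset.finite_toSet T) fun p hp => ?_) h1
  apply Ideal.finite_factors
  rw [Ne, Ideal.zero_eq_bot, Ideal.span_singleton_eq_bot]
  exact_mod_cast (hT p hp).ne_zero

theorem eval₂_scale {R k : Type} [CommRing R] [Field k] (φ : R →+* k) {r n : ℕ}
    (F : MvPolynomial ((Fin r × Fin 3) ⊕ Fin (n + 1)) R) (d : Fin r → ℕ) (m : ℕ) (hF : MultiHom F d m)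
    (c : Fin r → k) (W : Fin r → Fin 3 → k) (z : Fin (n + 1) → k) :
    eval₂ φ (Sum.elim (fun ij => c ij.1 * W ij.1 ij.2) z) F =
      (∏ i, c i ^ d i) * eval₂ φ (Sum.elim (fun ij => W ij.1 ij.2) z) F := by
  rw [eval₂_eq', eval₂_eq', Finset.mul_sum]
  refine Finset.sum_congr rfl fun x hx => ?_
  have h1 := (hF x hx).1
  have h2 : ∏ ij : Fin r × Fin 3, c ij.1 ^ x (Sum.inl ij) = ∏ i, c i ^ d i := by
    rw [Fintype.prod_prod_type]
    refine Finset.prod_congr rfl fun i _ => ?_
    have h3 : ∏ j : Fin 3, c i ^ x (Sum.inl (i, j)) = c i ^ d i := by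
      rw [Finset.prod_pow_eq_pow_sum, h1 i]
    exact h3
  rw [Fintype.prod_sum_type, Fintype.prod_sum_type]
  simp only [Sum.elim_inl, Sum.elim_inr, mul_pow, Finset.prod_mul_distrib]
  rw [h2]
  ring

theorem exists_point {a b : ℂ} (h0 : 4 * a ^ 3 + 27 * b ^ 2 ≠ 0) (V : Fin 3 → ℂ)
    (hV : Pool.Agent.Results.MP_308fa9_nt.ClosuresInFamilies.OnE a b V) :
    ∃ (P : (curve a b).toAffine.Point) (c : ℂ), c ≠ 0 ∧ ∀ j, V j = c * coords P j := by
  obtain ⟨h1, h2⟩ := hV
  by_cases h3 : V 2 = 0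
  · have h4 : V 0 = 0 := by
      rw [h3] at h2
      have : V 0 ^ 3 = 0 := by linear_combination -h2
      exact pow_eq_zero_iff (by norm_num) |>.1 this
    have h5 : V 1 ≠ 0 := by
      intro h5
      apply h1
      funext j
      fin_cases j
      · exact h4
      · exact h5
      · exact h3
    refine ⟨.zero, V 1, h5, fun j => ?_⟩
    fin_cases j
    · simp [coords, h4]
    · simp [coords]
    · simp [coords, h3]
  · have hd : Pool.Agent.H901R3.MS.Disc a b := mul_ne_zero two_ne_zero h0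
    have h4 : (curve a b).toAffine.Nonsingular (V 0 / V 2) (V 1 / V 2) := by
      refine (Pool.Agent.H901R3.MS.nonsingular_iff hd).2 ?_
      unfold Pool.Agent.H901R3.MS.Eqn
      field_simp
      linear_combination h2
    refine ⟨.some (V 0 / V 2) (V 1 / V 2) h4, V 2, h3, fun j => ?_⟩
    fin_cases j
    · simp [coords]
      field_simp
    · simp [coords]
      field_simp
    · simp [coords]

/-- **Few members without obstruction.** -/
theorem count {K : Type} [Field K] [NumberField K] (a b : 𝓞 K)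
    (hE : 4 * a ^ 3 + 27 * b ^ 2 ≠ 0) {r n q : ℕ}
    (G : Fin q → MvPolynomial ((Fin r × Fin 3) ⊕ Fin (n + 1)) (𝓞 K))
    (d : Fin q → Fin r → ℕ) (deg : Fin q → ℕ) (hG : ∀ e, MultiHom (G e) (d e) (deg e))
    (σ : K →+* ℂ) (M D : ℕ) (hM : 1 ≤ M)
    (hX : ∀ m, 1 ≤ m → m ≤ M → ∀ S : Fin r → (curve (σ a) (σ b)).toAffine.Point,
      {y : ℙ ℂ (Fin (n + 1) → ℂ) | IsSum σ a b G m S y.rep}.encard ≤ D)
    (T : Finset ℕ) (hT : ∀ p ∈ T, p.Prime) (ε : ℝ) (hε : 0 < ε) :
    ∃ C : ℝ, ∀ B : ℝ, 1 ≤ B → {y : ℙ K (Fin (n + 1) → K) | ¬ Obstructed a b G T M y ∧ y.mulHeight ≤ B}.Finite ∧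
      ({y : ℙ K (Fin (n + 1) → K) | ¬ Obstructed a b G T M y ∧ y.mulHeight ≤ B}.ncard : ℝ) ≤ C * B ^ ε := by
  have hE' : 4 * (σ a) ^ 3 + 27 * (σ b) ^ 2 ≠ 0 := by
    intro h
    apply hE
    have h1 : σ ((4 * a ^ 3 + 27 * b ^ 2 : 𝓞 K) : K) = 0 := by
      simp only [map_mul, map_add, map_pow, map_ofNat]
      exact h
    have h2 : ((4 * a ^ 3 + 27 * b ^ 2 : 𝓞 K) : K) = 0 := (map_eq_zero σ).1 h1
    exact_mod_cast h2
  obtain ⟨C₁, hC₁⟩ := Pool.Agent.Results.MP_308fa9_nt.ClosuresInFamilies.result K a b hE r n q G d deg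
    (fun e x hx => hG e x hx) σ D (by
      intro V hV
      choose P c hc hP using fun i => exists_point hE' (V i) (hV i)
      refine le_trans (Set.encard_le_encard ?_) (hX 1 le_rfl hM P)
      intro y hy
      refine ⟨fun _ => P, fun j e => ?_, fun i => by simp⟩
      have h1 := hy e
      have h2 : (fun ij : Fin r × Fin 3 => V ij.1 ij.2) = fun ij => c ij.1 * coords (P ij.1) ij.2 := by
        funext ij
        exact hP ij.1 ij.2
      rw [h2, eval₂_scale _ (G e) (d e) (deg e) (hG e) c (fun i => coords (P i)) y.rep] at h1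
      rcases mul_eq_zero.1 h1 with h3 | h3
      · exact absurd h3 (Finset.prod_ne_zero_iff.2 fun i _ => pow_ne_zero _ (hc i))
      · exact h3) (PlacesAbove T K) (places_finite T hT K) ε hε
  obtain ⟨C₂, hC₂⟩ := Pool.Agent.Results.MP_308fa9_nt.FamiliesOverExtensions.result K a b hE r n q G d deg hG σ M D
    (fun m h2 hm S => hX m (by omega) hm S) T hT ε hε
  refine ⟨C₁ + C₂, fun B hB => ?_⟩
  obtain ⟨f1, c1⟩ := hC₁ B hB
  obtain ⟨f2, c2⟩ := hC₂ B hB
  have hsub : {y : ℙ K (Fin (n + 1) → K) | ¬ Obstructed a b G T M y ∧ y.mulHeight ≤ B} ⊆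
      {y ∈ Pool.Agent.Results.MP_308fa9_nt.ClosuresInFamilies.Unobstructed a b G (PlacesAbove T K) | y.mulHeight ≤ B} ∪
      {y ∈ Unobstructed a b G T M | y.mulHeight ≤ B} := by
    rintro y ⟨h1, h2⟩
    unfold Obstructed at h1
    rw [not_and_or, not_not, not_not] at h1
    rcases h1 with h1 | h1
    · exact Or.inl ⟨h1, h2⟩
    · exact Or.inr ⟨h1, h2⟩
  refine ⟨(f1.union f2).subset hsub, ?_⟩
  have h3 := (Set.ncard_le_ncard hsub (f1.union f2)).trans (Set.ncard_union_le _ _)
  have h4 : ({y : ℙ K (Fin (n + 1) → K) | ¬ Obstructed a b G T M y ∧ y.mulHeight ≤ B}.ncard : ℝ) ≤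
      ({y ∈ Pool.Agent.Results.MP_308fa9_nt.ClosuresInFamilies.Unobstructed a b G (PlacesAbove T K) |
        y.mulHeight ≤ B}.ncard : ℝ) + ({y ∈ Unobstructed a b G T M | y.mulHeight ≤ B}.ncard : ℝ) := by
    exact_mod_cast h3
  rw [add_mul]
  linarith

end Pool.Agent.Helper12.BM
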